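import Pool.Agent.H4.SE.Targets

/-!
# MP_45b854_al: paths which cross edges with an inserted point, good coupling
-/

set_option autoImplicit false

open Finset Equiv
open scoped Classical

namespace Pool.Agent.H89.SE4.IG

open Pool.Agent.H4.SE


theorem pp_succ {r : ℕ} {β : Type} (ρ : Fin r → Perm β) (T : List (Fin r × Bool)) (k : ℕ)
    (x : Fin r × Bool) (hx : T[k]? = some x) (u : β) :
    pp ρ T (k + 1) u = Pool.Agent.H11.SAE.lp ρ x (pp ρ T k u) := by
  simp only [pp, hx, Perm.mul_apply]

theorem ZZ_true {r d : ℕ} {β : Type} (T : Fin d → List (Fin r × Bool)) (σ : Fin r → Perm β)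
    (p : Fin r → β) (j : Fin d) (k : ℕ) (i : Fin r) (hx : (T j)[k]? = some (i, true)) :
    ZZ T σ p (j, k) = some ((pp σ (T j) k)⁻¹ (p i)) := by
  simp [ZZ, lb, rt, sg, hx]

theorem ZZ_false {r d : ℕ} {β : Type} (T : Fin d → List (Fin r × Bool)) (σ : Fin r → Perm β)
    (p : Fin r → β) (j : Fin d) (k : ℕ) (i : Fin r) (hx : (T j)[k]? = some (i, false)) :
    ZZ T σ p (j, k) = some ((pp σ (T j) (k + 1))⁻¹ (p i)) := by
  simp [ZZ, lb, rt, sg, hx]

section

variable (hI1 : T_I1) {r d : ℕ} (T : Fin d → List (Fin r × Bool)) {β : Type} [DecidableEq β]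
  (σ : Fin r → Perm β) (o : Fin r → Option β) (p : Fin r → β) (ho : ∀ i, o i = some (p i))
  (j : Fin d) (k : ℕ) (hk : k < (T j).length) (u : Option β) (s : β)

include hI1 ho hk

theorem stepO (h : pp (ins σ o) (T j) k u = some (pp σ (T j) k s))
    (hz : ZZ T σ p (j, k) ≠ some s) :
    pp (ins σ o) (T j) (k + 1) u = some (pp σ (T j) (k + 1) s) := by
  obtain ⟨⟨i, b⟩, hx⟩ : ∃ x, (T j)[k]? = some x := ⟨_, List.getElem?_eq_getElem hk⟩
  have e1 := pp_succ (ins σ o) (T j) k _ hx u
  have e2 := pp_succ σ (T j) k _ hx s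
  rw [e1, h]
  cases b with
  | true =>
    rw [ZZ_true T σ p j k i hx] at hz
    have hne : o i ≠ some (pp σ (T j) k s) := by
      rw [ho i]
      intro hh
      apply hz
      rw [Option.some.inj hh]
      simp
    have := (hI1 r β σ o i).1 _ hne
    rw [e2]
    simpa [Pool.Agent.H11.SAE.lp] using this
  | false =>
    rw [ZZ_false T σ p j k i hx] at hz
    have hne : o i ≠ some (pp σ (T j) (k + 1) s) := by
      rw [ho i]
      intro hh
      apply hz
      rw [Option.some.inj hh]
      simp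
    have := (hI1 r β σ o i).2.2.1 _ hne
    have e3 : σ i (pp σ (T j) (k + 1) s) = pp σ (T j) k s := by
      rw [e2]
      simp [Pool.Agent.H11.SAE.lp]
    rw [e3] at this
    simpa [Pool.Agent.H11.SAE.lp] using this

theorem stepA (h : pp (ins σ o) (T j) k u = some (pp σ (T j) k s))
    (hz : ZZ T σ p (j, k) = some s) :
    pp (ins σ o) (T j) (k + 1) u = none := by
  obtain ⟨⟨i, b⟩, hx⟩ : ∃ x, (T j)[k]? = some x := ⟨_, List.getElem?_eq_getElem hk⟩
  have e1 := pp_succ (ins σ o) (T j) k _ hx u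
  have e2 := pp_succ σ (T j) k _ hx s
  rw [e1, h]
  cases b with
  | true =>
    rw [ZZ_true T σ p j k i hx] at hz
    have hp : pp σ (T j) k s = p i := by
      rw [← Option.some.inj hz]
      simp
    have := ((hI1 r β σ o i).2.1 _ (ho i)).1
    rw [hp]
    simpa [Pool.Agent.H11.SAE.lp] using this
  | false =>
    rw [ZZ_false T σ p j k i hx] at hz
    have hp : pp σ (T j) (k + 1) s = p i := by
      rw [← Option.some.inj hz]
      simp
    have := ((hI1 r β σ o i).2.2.2 _ (ho i)).1
    have e3 : σ i (pp σ (T j) (k + 1) s) = pp σ (T j) k s := by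
      rw [e2]
      simp [Pool.Agent.H11.SAE.lp]
    rw [hp] at e3
    rw [e3] at this
    simpa [Pool.Agent.H11.SAE.lp] using this

theorem stepB (h : pp (ins σ o) (T j) k u = none) (hz : ZZ T σ p (j, k) = some s) :
    pp (ins σ o) (T j) (k + 1) u = some (pp σ (T j) (k + 1) s) := by
  obtain ⟨⟨i, b⟩, hx⟩ : ∃ x, (T j)[k]? = some x := ⟨_, List.getElem?_eq_getElem hk⟩
  have e1 := pp_succ (ins σ o) (T j) k _ hx u
  have e2 := pp_succ σ (T j) k _ hx s
  rw [e1, h]
  cases b with
  | true =>
    rw [ZZ_true T σ p j k i hx] at hz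
    have hp : pp σ (T j) k s = p i := by
      rw [← Option.some.inj hz]
      simp
    have := ((hI1 r β σ o i).2.1 _ (ho i)).2
    rw [e2, hp]
    simpa [Pool.Agent.H11.SAE.lp] using this
  | false =>
    rw [ZZ_false T σ p j k i hx] at hz
    have hp : pp σ (T j) (k + 1) s = p i := by
      rw [← Option.some.inj hz]
      simp
    have := ((hI1 r β σ o i).2.2.2 _ (ho i)).2
    rw [hp]
    simpa [Pool.Agent.H11.SAE.lp] using this

end

theorem cont (hI1 : T_I1) {r d : ℕ} (T : Fin d → List (Fin r × Bool)) {β : Type} [DecidableEq β]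
    (σ : Fin r → Perm β) (o : Fin r → Option β) (p : Fin r → β) (ho : ∀ i, o i = some (p i))
    (j : Fin d) (u : Option β) (s : β) (m : ℕ)
    (h : pp (ins σ o) (T j) m u = some (pp σ (T j) m s))
    (hz : ∀ k, m ≤ k → k < (T j).length → ZZ T σ p (j, k) ≠ some s) :
    ∀ k, m ≤ k → k ≤ (T j).length → pp (ins σ o) (T j) k u = some (pp σ (T j) k s) := by
  intro k hmk
  induction k, hmk using Nat.le_induction with
  | base => exact fun _ => h
  | succ k hmk ih =>
    intro hk
    exact stepO hI1 T σ o p ho j k (by omega) u s (ih (by omega)) (hz k hmk (by omega))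

/-- paths which cross edges with an inserted point, good coupling -/
theorem pf_IG (hI1 : T_I1) (hIO : T_IO) : T_IG := by
  intro r d T β _ σ o p ho j hd
  have h1 : ∀ k s, k < (T j).length → ZZ T σ p (j, k) = some s →
      pp (ins σ o) (T j) (k + 1) (some s) = none := by
    intro k s hk hz
    refine stepA hI1 T σ o p ho j k hk (some s) s ?_ hz
    refine hIO r d T β σ o p ?_ j s k hk.le ?_ k le_rfl
    · intro i s' hs'
      rw [ho i] at hs'
      exact Option.some.inj hs'
    · intro k' hk' hh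
      exact hd k' k hk' hk (hh.trans hz.symm)
  refine ⟨h1, ?_, ?_⟩
  · intro s hz k hk1 hk
    refine cont hI1 T σ o p ho j none s 1 ?_ ?_ k hk1 hk
    · exact stepB hI1 T σ o p ho j 0 (by omega) none s (by simp [pp]) hz
    · intro k' h1k' hk' hh
      exact hd 0 k' (by omega) hk' (hz.trans hh.symm)
  · intro k s s' hk hz hz' k' hkk' hk'
    refine cont hI1 T σ o p ho j (some s) s' (k + 2) ?_ ?_ k' hkk' hk'
    · exact stepB hI1 T σ o p ho j (k + 1) hk (some s) s' (h1 k s (by omega) hz) hz'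
    · intro k'' h1k' hk'' hh
      exact hd (k + 1) k'' (by omega) hk'' (hz'.trans hh.symm)

end Pool.Agent.H89.SE4.IG
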